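import Pool.Agent.TH382.DSP.Mix

set_option autoImplicit false

/-!
# D-separable products

The definitions are in `Pool/Agent/TH382/DSP/Main.lean` (`DSeparable`, `IsPiBase`,
`HasSigmaDisjointPiBase`, `PiWeightLE`, `LocalDensityGE`, `Fast`), `Fin.lean` (`TypeTwo`) and
`Mix.lean` (`Nice`, `LocallyNice`); `mu` is the sequence of cardinals of
`Pool/Agent/W648/DSep/Cube.lean`: `mu J j` is the successor of
`2 ^ 2 ^ (#J + the sum of all mu J i, i < j)`.
-/

namespace Pool.Agent.Results.MP_b4417b_gt.KnownTypes

open Pool.Agent.TH382.DSP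

theorem result :
    -- one factor an arbitrary D-separable space
    (∀ (X Y : Type) [TopologicalSpace X] [TopologicalSpace Y], DSeparable X →
      LocallyNice (fun κ => PiWeightLE κ X) Y → DSeparable (X × Y)) ∧
    -- one factor an arbitrary space with a pi-base of at most `κ` sets
    (∀ κ : Cardinal.{0}, Fast κ → ∀ (X Y : Type) [TopologicalSpace X] [TopologicalSpace Y]
      [T2Space Y], PiWeightLE κ X → TypeTwo κ Y → DSeparable (X × Y)) ∧
    -- locally nice spaces are D-separable and closed under products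
    (∀ (X : Type) [TopologicalSpace X], LocallyNice (fun _ => True) X → DSeparable X) ∧
    (∀ (X Y : Type) [TopologicalSpace X] [TopologicalSpace Y], LocallyNice (fun _ => True) X →
      LocallyNice (fun _ => True) Y → LocallyNice (fun _ => True) (X × Y)) ∧
    -- the two types are locally nice
    (∀ (P : Cardinal.{0} → Prop) (X : Type) [TopologicalSpace X], HasSigmaDisjointPiBase X →
      LocallyNice P X) ∧
    (∀ (P : Cardinal.{0} → Prop) (κ : Cardinal.{0}), Fast κ → P κ → ∀ (X : Type)
      [TopologicalSpace X] [T2Space X], TypeTwo κ X → LocallyNice P X) ∧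
    -- the second type occurs
    (∃ (ι : Type) (κ : Cardinal.{0}), Fast κ ∧ TypeTwo κ (ι → Bool) ∧
      ¬ HasSigmaDisjointPiBase (ι → Bool)) :=
  ⟨fun _ _ _ _ hX hY => prod_locallyNice hX hY,
    fun _ hκ _ _ _ _ _ hX hY => prod_of_density hκ hX hY.1 hY.2,
    fun _ _ hX => locallyNice_dsep hX,
    fun _ _ _ _ hX hY => locallyNice_prod hX hY,
    fun P _ _ hX => locallyNice_of_sigma P hX,
    fun _ _ hκ hP _ _ _ hX => locallyNice_of_typeTwo hκ hP hX,
    ⟨_, _, fast_kap, ⟨cube_pi, cube_density⟩, cube_not⟩⟩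

end Pool.Agent.Results.MP_b4417b_gt.KnownTypes
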